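import Pool.Agent.R55.HJ

/-!
# Schönheim's question on 10-critical graphs without `K₉` (MP_e338b6_co): the answer is no

For every `t` there is a 10-critical `K₉`-free graph with `27 + 9 t` vertices and at most
`161 + 44 t` edges. For `t ≥ 37` this is at most `5 n - 11`, and the ratio of the numbers of edges
and vertices comes arbitrarily close to `44 / 9 < 5`.

Construction: a chain of Hajós joins. Both ends of the chain are copies of the join of two
pentagons and a `K₄` (10-critical, clique number 8); the inner graphs are copies of `K₁₀`. Each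
inner `K₁₀` loses two disjoint edges and thereby all its subgraphs `K₉`.
-/

set_option autoImplicit false

namespace Pool.Agent.Results.MP_e338b6_co.SparseNoNine

open SimpleGraph Pool.Agent.R55.HJ

/-- `G` is `k`-critical: its chromatic number is `k`, and every proper subgraph has smaller
chromatic number. -/
def IsCritical (k : ℕ) {V : Type} (G : SimpleGraph V) : Prop :=
  G.chromaticNumber = (k : ℕ∞) ∧ ∀ S : G.Subgraph, S ≠ ⊤ → S.coe.chromaticNumber < (k : ℕ∞)

open Pool.Agent.Results.MP_c17804_co.CriticalJoins (Cr top_cr join_cr joinG Glue critical_of_cr)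

lemma c5_cr : Cr 2 (cycleGraph 5) := by
  refine ⟨?_, ?_, ?_⟩
  · simp only [cycleGraph_adj]
    decide +kernel
  · simp only [cycleGraph_adj]
    decide +kernel
  · simp only [cycleGraph_adj]
    decide +kernel

/-- The join of two pentagons and `K₄`. -/
def base : SimpleGraph ((Fin 5 ⊕ Fin 5) ⊕ Fin (3 + 1)) :=
  cj (cj (cycleGraph 5) (cycleGraph 5)) (⊤ : SimpleGraph (Fin (3 + 1)))

lemma base_cr : Cr 9 base :=
  cj_cr (by norm_num) (by norm_num) (cj_cr (by norm_num) (by norm_num) c5_cr c5_cr)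
    (top_cr (by norm_num))

lemma card_lt_of_cliqueFree {V : Type} {G : SimpleGraph V} {a : ℕ} (h : G.CliqueFree a)
    (s : Finset V) (hs : G.IsClique (s : Set V)) : s.card < a := by
  by_contra hlt
  obtain ⟨t, ht, hc⟩ := Finset.exists_subset_card_eq (not_lt.1 hlt)
  exact h t ⟨hs.subset (by exact_mod_cast ht), hc⟩

lemma cj_cliqueFree {V W : Type} {G : SimpleGraph V} {H : SimpleGraph W} {a b : ℕ}
    (hG : G.CliqueFree (a + 1)) (hH : H.CliqueFree (b + 1)) : (cj G H).CliqueFree (a + b + 1) := by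
  classical
  intro t ht
  have h1 := card_lt_of_cliqueFree hG t.toLeft (by
    intro u hu v hv huv
    rw [Finset.mem_coe, Finset.mem_toLeft] at hu hv
    exact ht.isClique hu hv (fun h => huv (Sum.inl_injective h)))
  have h2 := card_lt_of_cliqueFree hH t.toRight (by
    intro u hu v hv huv
    rw [Finset.mem_coe, Finset.mem_toRight] at hu hv
    exact ht.isClique hu hv (fun h => huv (Sum.inr_injective h)))
  have h3 := Finset.card_toLeft_add_card_toRight (u := t)
  have h4 := ht.card_eq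
  omega

lemma c5_cliqueFree : (cycleGraph 5).CliqueFree (2 + 1) := by
  rw [cliqueFree_iff_hasK]
  rintro ⟨e, he⟩
  have h : ∀ a b c : Fin 5, ¬ ((cycleGraph 5).Adj a b ∧ (cycleGraph 5).Adj a c ∧
      (cycleGraph 5).Adj b c) := by
    simp only [cycleGraph_adj]
    decide +kernel
  exact h (e 0) (e 1) (e 2) ⟨he _ _ (by decide), he _ _ (by decide), he _ _ (by decide)⟩

lemma base_cliqueFree : base.CliqueFree 9 :=
  cj_cliqueFree (a := 4) (b := 4) (cj_cliqueFree (a := 2) (b := 2) c5_cliqueFree c5_cliqueFree)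
    (cliqueFree_of_card_lt (by decide))

instance {V W : Type} (G : SimpleGraph V) (H : SimpleGraph W) [DecidableRel G.Adj]
    [DecidableRel H.Adj] : DecidableRel (cj G H).Adj := by
  rintro (a | a) (b | b)
  · exact inferInstanceAs (Decidable (G.Adj a b))
  · exact isTrue trivial
  · exact isTrue trivial
  · exact inferInstanceAs (Decidable (H.Adj a b))

instance : DecidableRel (cycleGraph 5).Adj := fun a b =>
  decidable_of_iff _ (cycleGraph_adj (n := 3) (u := a) (v := b)).symm

instance : DecidableRel base.Adj :=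
  inferInstanceAs (DecidableRel (cj (cj (cycleGraph 5) (cycleGraph 5)) ⊤).Adj)

lemma base_edges : base.edgeSet.ncard ≤ 81 := by
  rw [Set.ncard_eq_toFinset_card']
  decide +kernel

/-- Intermediate graphs of the chain: deleting the edge `x y` destroys all `K₉`. -/
def State (n e : ℕ) : Prop :=
  ∃ (V : Type) (_ : Fintype V) (G : SimpleGraph V) (x y : V), Fintype.card V = n ∧ G.Adj x y ∧
    Cr 9 G ∧ (G.deleteEdges {s(x, y)}).CliqueFree 9 ∧ G.edgeSet.ncard ≤ e

lemma state_start : State 14 81 := by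
  refine ⟨_, inferInstance, base, Sum.inr 0, Sum.inr 1, by simp, ?_, base_cr, ?_, base_edges⟩
  · show (⊤ : SimpleGraph (Fin (3 + 1))).Adj 0 1
    decide
  · exact base_cliqueFree.anti (deleteEdges_le _)

lemma ten_cliqueFree : ((⊤ : SimpleGraph (Fin (9 + 1))).deleteEdges
    ({s(0, 1)} ∪ {s(2, 3)})).CliqueFree 9 := by
  intro t ht
  have h1 : ¬ ((0 : Fin (9 + 1)) ∈ t ∧ (1 : Fin (9 + 1)) ∈ t) := by
    rintro ⟨h0, h1⟩
    have := ht.isClique h0 h1 (by decide)
    rw [deleteEdges_adj] at this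
    exact this.2 (Or.inl rfl)
  have h2 : ¬ ((2 : Fin (9 + 1)) ∈ t ∧ (3 : Fin (9 + 1)) ∈ t) := by
    rintro ⟨h0, h1⟩
    have := ht.isClique h0 h1 (by decide)
    rw [deleteEdges_adj] at this
    exact this.2 (Or.inr rfl)
  have h3 : ∃ a : Fin (9 + 1), (a = 0 ∨ a = 1) ∧ a ∉ t := by
    by_contra hcon
    push Not at hcon
    exact h1 ⟨hcon 0 (Or.inl rfl), hcon 1 (Or.inr rfl)⟩
  have h4 : ∃ a : Fin (9 + 1), (a = 2 ∨ a = 3) ∧ a ∉ t := by
    by_contra hcon
    push Not at hcon
    exact h2 ⟨hcon 2 (Or.inl rfl), hcon 3 (Or.inr rfl)⟩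
  obtain ⟨a, ha, hat⟩ := h3
  obtain ⟨b, hb, hbt⟩ := h4
  have hab : a ≠ b := by
    rcases ha with rfl | rfl <;> rcases hb with rfl | rfl <;> decide
  have h5 : t ⊆ (Finset.univ.erase a).erase b := by
    intro z hz
    rw [Finset.mem_erase, Finset.mem_erase]
    exact ⟨fun h => hbt (h ▸ hz), fun h => hat (h ▸ hz), Finset.mem_univ _⟩
  have h6 := Finset.card_le_card h5
  rw [Finset.card_erase_of_mem (by simp [hab.symm]), Finset.card_erase_of_mem (by simp),
    ht.card_eq, Finset.card_univ, Fintype.card_fin] at h6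
  omega

lemma ten_edges : (⊤ : SimpleGraph (Fin (9 + 1))).edgeSet.ncard ≤ 45 := by
  rw [Set.ncard_eq_toFinset_card']
  decide +kernel

lemma state_step {n e : ℕ} (h : State n e) : State (n + 9) (e + 44) := by
  obtain ⟨V, hV, G, x, y, hn, hxy, hcr, hfree, he⟩ := h
  obtain ⟨M, hM, f1, f2, g, hcard⟩ := exists_glue' x (0 : Fin (9 + 1))
  have h2 : (⊤ : SimpleGraph (Fin (9 + 1))).Adj 0 1 := by decide
  refine ⟨M, hM, joinG G ⊤ x y 0 1 f1 f2 g hxy, f2 2, f2 3, ?_, ?_, ?_, ?_, ?_⟩
  · rw [hn, Fintype.card_fin] at hcard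
    omega
  · exact Or.inr (Or.inl ⟨2, 3, by decide, by decide, rfl, rfl⟩)
  · exact join_cr (by norm_num) g hcr (top_cr (by norm_num)) hxy h2
  · have := joinG_cliqueFree g hxy h2 (m := 9) (by norm_num) {s(2, 3)} hfree ten_cliqueFree
    rwa [Set.image_singleton, Sym2.map_mk] at this
  · have := joinG_edges g hxy h2 he ten_edges
    omega

lemma state_all (t : ℕ) : State (14 + 9 * t) (81 + 44 * t) := by
  induction t with
  | zero => exact state_start
  | succ t ih =>
    have := state_step ih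
    have e1 : 14 + 9 * t + 9 = 14 + 9 * (t + 1) := by ring
    have e2 : 81 + 44 * t + 44 = 81 + 44 * (t + 1) := by ring
    rwa [e1, e2] at this

lemma finish {n e : ℕ} (h : State n e) : ∃ G : SimpleGraph (Fin (n + 13)),
    Cr 9 G ∧ G.CliqueFree 9 ∧ G.edgeSet.ncard ≤ e + 80 := by
  obtain ⟨V, hV, G, x, y, hn, hxy, hcr, hfree, he⟩ := h
  obtain ⟨M, hM, f1, f2, g, hcard⟩ := exists_glue' x (Sum.inr 0 : (Fin 5 ⊕ Fin 5) ⊕ Fin (3 + 1))
  have h2 : base.Adj (Sum.inr 0) (Sum.inr 1) := by
    show (⊤ : SimpleGraph (Fin (3 + 1))).Adj 0 1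
    decide
  have hcM : Fintype.card (Fin (n + 13)) = Fintype.card M := by
    rw [hn] at hcard
    simp only [Fintype.card_sum, Fintype.card_fin] at hcard
    rw [Fintype.card_fin]
    omega
  have e := Fintype.equivOfCardEq hcM
  refine ⟨(joinG G base x y (Sum.inr 0) (Sum.inr 1) f1 f2 g hxy).comap e, ?_, ?_, ?_⟩
  · exact cr_comap (join_cr (by norm_num) g hcr base_cr hxy h2) e
  · apply cliqueFree_comap
    have := joinG_cliqueFree g hxy h2 (m := 9) (by norm_num) ∅ hfree
      (base_cliqueFree.anti (deleteEdges_le _))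
    rwa [Set.image_empty, deleteEdges_empty] at this
  · have := joinG_edges g hxy h2 he base_edges
    exact (edges_comap e).trans (by omega)

/-- **Schönheim's question has a negative answer.** (1) For every `t` there is a `K₉`-free
`10`-critical graph with `27 + 9 t` vertices and at most `161 + 44 t` edges. (2) Hence there is a
`K₉`-free `10`-critical graph on `n` vertices with at most `5 n - 11` edges, for infinitely many
`n`, among them `n = 360`; and `5 n - 11 - |E|` can be made arbitrarily large. -/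
theorem result :
    (∀ t : ℕ, ∃ G : SimpleGraph (Fin (27 + 9 * t)), IsCritical 10 G ∧ G.CliqueFree 9 ∧
      G.edgeSet.ncard ≤ 161 + 44 * t) ∧
    (∃ G : SimpleGraph (Fin 360), IsCritical 10 G ∧ G.CliqueFree 9 ∧
      G.edgeSet.ncard ≤ 5 * 360 - 11) ∧
    (∀ N : ℕ, ∃ n : ℕ, N ≤ n ∧ ∃ G : SimpleGraph (Fin n), IsCritical 10 G ∧ G.CliqueFree 9 ∧
      G.edgeSet.ncard + 11 + N ≤ 5 * n) := by
  have main : ∀ t : ℕ, ∃ G : SimpleGraph (Fin (27 + 9 * t)), IsCritical 10 G ∧ G.CliqueFree 9 ∧
      G.edgeSet.ncard ≤ 161 + 44 * t := by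
    intro t
    obtain ⟨G, h1, h2, h3⟩ := finish (state_all t)
    have e1 : 14 + 9 * t + 13 = 27 + 9 * t := by ring
    rw [← e1]
    exact ⟨G, critical_of_cr (by norm_num) h1, h2, by omega⟩
  refine ⟨main, ?_, ?_⟩
  · obtain ⟨G, h1, h2, h3⟩ := main 37
    exact ⟨G, h1, h2, h3⟩
  · intro N
    obtain ⟨G, h1, h2, h3⟩ := main (N + 37)
    exact ⟨27 + 9 * (N + 37), by omega, G, h1, h2, by omega⟩

end Pool.Agent.Results.MP_e338b6_co.SparseNoNine
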